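import Pool.Agent.ZRT.StmtsA
import Pool.Agent.Helper14_MVS.SDF

/-!
# ZRT, row VLP: the volume of the slab does not change under norm preserving diffeomorphisms
-/

noncomputable section

open scoped ContDiff Topology RealInnerProductSpace
open Set MeasureTheory

namespace Pool.Agent.ZRT.H51

open Pool.Agent.RF Pool.Agent.MVS

theorem vlp : VlpStatement := by
  intro G Ψ Ψ' _ hd
  obtain ⟨-, hs2, -, -⟩ := Pool.Agent.MVS.H14.sdf (Fin 5)
  have hOm : IsOpen (Om (Fin 5)) := isOpen_compl_singleton
  have hsl : slab (Fin 5) ⊆ Om (Fin 5) := by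
    intro x hx h0
    have h1 := hx.1
    rw [h0, norm_zero] at h1
    linarith
  have hms : MeasurableSet (slab (Fin 5)) := by
    unfold slab
    exact (measurableSet_lt measurable_const measurable_norm).inter
      (measurableSet_lt measurable_norm measurable_const)
  have hdiff : ∀ z ∈ slab (Fin 5), HasFDerivWithinAt Ψ (fderiv ℝ Ψ z) (slab (Fin 5)) z := by
    intro z hz
    have h1 : ContDiffAt ℝ ∞ Ψ z := hd.smooth.contDiffAt (hOm.mem_nhds (hsl hz))
    exact (h1.differentiableAt (by simp)).hasFDerivAt.hasFDerivWithinAt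
  have hinj : InjOn Ψ (slab (Fin 5)) := by
    intro z hz z' hz' h
    rw [← hd.left z (hsl hz), ← hd.left z' (hsl hz'), h]
  have himg : Ψ '' slab (Fin 5) = slab (Fin 5) := by
    ext y
    constructor
    · rintro ⟨z, hz, rfl⟩
      refine ⟨?_, ?_⟩
      · rw [hd.norm]; exact hz.1
      · rw [hd.norm]; exact hz.2
    · intro hy
      refine ⟨Ψ' y, ⟨?_, ?_⟩, hd.right y (hsl hy)⟩
      · rw [hd.norm']; exact hy.1
      · rw [hd.norm']; exact hy.2
  have heq := integral_image_eq_integral_abs_det_fderiv_smul volume hms hdiff hinj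
    (fun x : E5 => sd (G x))
  rw [himg] at heq
  rw [heq]
  refine setIntegral_congr_fun hms fun z _ => ?_
  simp only [smul_eq_mul]
  exact hs2 (G (Ψ z)) (fderiv ℝ Ψ z)

end Pool.Agent.ZRT.H51
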